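import Pool.Agent.H954.AD.Main

/-!
# Long cycles in random subgraphs of graphs with given average degree

If `G` has average degree at least `k` and `p k → ∞`, the random subgraph `G_p` has a cycle of
length at least `(1 - o(1)) k` asymptotically almost surely.
-/

open Finset Filter Topology

namespace Pool.Agent.Results.MP_816dee_pr.LongCyclesAverageDegree

/-- The average degree `2 |E| / |V|`. -/
noncomputable def avgDegree {V : Type} [Fintype V] (G : SimpleGraph V) : ℝ :=
  2 * (G.edgeSet.ncard : ℝ) / Fintype.card V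

open Classical in
/-- The probability that the random spanning subgraph `G_p`, which keeps every edge of `G`
independently with probability `p`, has the property `A`: the sum over all sets `S` of edges of `G`
such that the graph with edge set `S` has the property. -/
noncomputable def prob {V : Type} [Fintype V] (G : SimpleGraph V) (p : ℝ)
    (A : SimpleGraph V → Prop) : ℝ :=
  ∑ S ∈ G.edgeFinset.powerset.filter
      (fun S : Finset (Sym2 V) => A (SimpleGraph.fromEdgeSet (S : Set (Sym2 V)))),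
    p ^ S.card * (1 - p) ^ (G.edgeFinset.card - S.card)

/-- `H` has a cycle of length at least `r`. -/
def HasCycleOfLengthAtLeast {V : Type} (r : ℝ) (H : SimpleGraph V) : Prop :=
  ∃ (v : V) (c : H.Walk v v), c.IsCycle ∧ r ≤ c.length

/-- **Q1.** -/
def Q1 : Prop :=
  ∀ (V : ℕ → Type) [∀ k, Fintype (V k)] (G : ∀ k, SimpleGraph (V k)) (p : ℕ → ℝ),
    (∀ k, 0 ≤ p k ∧ p k ≤ 1) → (∀ k : ℕ, (k : ℝ) ≤ avgDegree (G k)) →
    Tendsto (fun k : ℕ => p k * k) atTop atTop →
    ∃ δ : ℕ → ℝ, Tendsto δ atTop (𝓝 0) ∧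
      Tendsto (fun k : ℕ => prob (G k) (p k) (HasCycleOfLengthAtLeast ((1 - δ k) * k))) atTop (𝓝 1)

/-- The uniform version with an explicit rate of convergence. -/
def Quantitative : Prop :=
  ∀ ε : ℝ, 0 < ε → ε < 1 → ∃ C c : ℝ, 0 < C ∧ 0 < c ∧
    ∀ (V : Type) [Fintype V] (G : SimpleGraph V) (k p : ℝ), 0 ≤ p → p ≤ 1 → C ≤ p * k →
      k ≤ avgDegree G →
      1 - Real.exp (-(c * p * k ^ 2)) ≤ prob G p (HasCycleOfLengthAtLeast ((1 - ε) * k))

open Pool.Agent.H954.AD

theorem prob_add_not {V : Type} [Fintype V] (G : SimpleGraph V) (p : ℝ)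
    (A : SimpleGraph V → Prop) : prob G p A + prob G p (fun H => ¬ A H) = 1 :=
  wt_add_not _ p fun S : Finset (Sym2 V) => A (SimpleGraph.fromEdgeSet (S : Set (Sym2 V)))

theorem prob_nonneg {V : Type} [Fintype V] (G : SimpleGraph V) {p : ℝ} (hp0 : 0 ≤ p)
    (hp1 : p ≤ 1) (A : SimpleGraph V → Prop) : 0 ≤ prob G p A :=
  wt_nonneg hp0 hp1 fun S : Finset (Sym2 V) => A (SimpleGraph.fromEdgeSet (S : Set (Sym2 V)))

theorem prob_mono {V : Type} [Fintype V] (G : SimpleGraph V) {p : ℝ} (hp0 : 0 ≤ p)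
    (hp1 : p ≤ 1) {A B : SimpleGraph V → Prop} (h : ∀ H, A H → B H) : prob G p A ≤ prob G p B :=
  wt_mono hp0 hp1 fun S _ => h (SimpleGraph.fromEdgeSet (S : Set (Sym2 V)))

theorem quantitative : Quantitative := by
  intro ε hε hε1
  obtain ⟨C, c, hC, hc, h⟩ := main.{0} ε hε hε1
  refine ⟨C, c, hC, hc, ?_⟩
  intro V _ G k p hp0 hp1 hpk hG
  have hk0 : 0 < k := by
    by_contra h
    push Not at h
    have : p * k ≤ 0 := mul_nonpos_of_nonneg_of_nonpos hp0 h
    linarith
  have hV : 0 < Fintype.card V := by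
    by_contra h0
    have h1 : Fintype.card V = 0 := by omega
    unfold avgDegree at hG
    rw [h1] at hG
    simp at hG
    linarith
  have hVr : (0 : ℝ) < Fintype.card V := by exact_mod_cast hV
  have hG' : k * Fintype.card V ≤ 2 * (G.edgeSet.ncard : ℝ) := by
    unfold avgDegree at hG
    rwa [le_div_iff₀ hVr] at hG
  classical
  have h1 := h V G k p hp0 hp1 hpk hV (by
    rw [Set.ncard_eq_toFinset_card'] at hG'
    refine hG'.trans (le_of_eq ?_)
    refine congrArg (fun z : Finset (Sym2 V) => 2 * (z.card : ℝ)) ?_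
    ext q
    simp only [SimpleGraph.mem_edgeFinset, Set.mem_toFinset])
  have h2 : prob G p (fun H => ¬ HasCycleOfLengthAtLeast ((1 - ε) * k) H) ≤
      Real.exp (-(c * p * k ^ 2)) := by
    refine le_trans (wt_mono hp0 hp1 ?_) h1
    rintro S _ hS ⟨l, hl, v, cy, hcy, hlen⟩
    exact hS ⟨v, cy, hcy, hl.trans (by exact_mod_cast hlen)⟩
  have h3 := prob_add_not G p (HasCycleOfLengthAtLeast ((1 - ε) * k))
  linarith

theorem q1 : Q1 := by
  intro V _ G p hp hG hpk
  set F : ℕ → ℝ → ℝ := fun k ε => 1 - prob (G k) (p k) (HasCycleOfLengthAtLeast ((1 - ε) * k))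
    with hF
  -- for every `ε` the probability of failure tends to `0`
  have hev : ∀ ε : ℝ, 0 < ε → ε < 1 → ∀ᶠ k in atTop, F k ε ≤ ε := by
    intro ε hε hε1
    obtain ⟨C, c, hC, hc, h⟩ := quantitative ε hε hε1
    have h1 : Tendsto (fun k : ℕ => Real.exp (-(c * (p k * k)))) atTop (𝓝 0) := by
      apply Real.tendsto_exp_neg_atTop_nhds_zero.comp
      exact Tendsto.const_mul_atTop hc hpk
    filter_upwards [hpk.eventually_ge_atTop C, h1.eventually_le_const hε,
      eventually_ge_atTop 1] with k h2 h3 h4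
    have h5 := h (V k) (G k) k (p k) (hp k).1 (hp k).2 h2 (hG k)
    have h6 : Real.exp (-(c * p k * (k : ℝ) ^ 2)) ≤ Real.exp (-(c * (p k * k))) := by
      rw [Real.exp_le_exp]
      have h7 : (1 : ℝ) ≤ k := by exact_mod_cast h4
      have h8 : c * (p k * k) * 1 ≤ c * (p k * k) * k := by
        apply mul_le_mul_of_nonneg_left h7
        have := (hp k).1
        positivity
      nlinarith
    simp only [hF]
    linarith
  set S : ℕ → Set ℝ := fun k => {ε | 0 < ε ∧ F k ε ≤ ε} with hS
  have hS1 : ∀ k, (1 : ℝ) ∈ S k := by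
    intro k
    refine ⟨one_pos, ?_⟩
    have := prob_nonneg (G k) (hp k).1 (hp k).2 (HasCycleOfLengthAtLeast ((1 - 1) * (k : ℝ)))
    simp only [hF]
    linarith
  have hbdd : ∀ k, BddBelow (S k) := fun k => ⟨0, fun x hx => hx.1.le⟩
  have hinf0 : ∀ k, 0 ≤ sInf (S k) := fun k => le_csInf ⟨1, hS1 k⟩ fun x hx => hx.1.le
  have hinf : Tendsto (fun k => sInf (S k)) atTop (𝓝 0) := by
    rw [Metric.tendsto_atTop]
    intro ε hε
    have h1 := hev (min (ε / 2) (1 / 2)) (lt_min (by positivity) (by norm_num))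
      (lt_of_le_of_lt (min_le_right _ _) (by norm_num))
    obtain ⟨N, hN⟩ := eventually_atTop.mp h1
    refine ⟨N, fun k hk => ?_⟩
    have h2 : sInf (S k) ≤ min (ε / 2) (1 / 2) :=
      csInf_le (hbdd k) ⟨lt_min (by positivity) (by norm_num), hN k hk⟩
    rw [Real.dist_eq, sub_zero, abs_of_nonneg (hinf0 k)]
    have := min_le_left (ε / 2) (1 / 2)
    linarith
  set δ : ℕ → ℝ := fun k => sInf (S k) + 1 / ((k : ℝ) + 1) with hδ
  have hδ0 : Tendsto δ atTop (𝓝 0) := by
    have := hinf.add tendsto_one_div_add_atTop_nhds_zero_nat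
    simpa [hδ] using this
  refine ⟨δ, hδ0, ?_⟩
  have hFδ : ∀ k, F k (δ k) ≤ δ k := by
    intro k
    have h1 : sInf (S k) < δ k := by
      simp only [hδ]
      have : (0 : ℝ) < 1 / ((k : ℝ) + 1) := by positivity
      linarith
    obtain ⟨ε, hε, hlt⟩ := exists_lt_of_csInf_lt ⟨1, hS1 k⟩ h1
    have h2 : prob (G k) (p k) (HasCycleOfLengthAtLeast ((1 - ε) * k)) ≤
        prob (G k) (p k) (HasCycleOfLengthAtLeast ((1 - δ k) * k)) := by
      apply prob_mono _ (hp k).1 (hp k).2
      rintro H ⟨v, c, hc, hl⟩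
      refine ⟨v, c, hc, le_trans ?_ hl⟩
      have : (0 : ℝ) ≤ k := Nat.cast_nonneg k
      nlinarith
    have h3 := hε.2
    simp only [hF] at h3 ⊢
    linarith
  have hle1 : ∀ k, prob (G k) (p k) (HasCycleOfLengthAtLeast ((1 - δ k) * k)) ≤ 1 := by
    intro k
    have h1 := prob_add_not (G k) (p k) (HasCycleOfLengthAtLeast ((1 - δ k) * k))
    have h2 := prob_nonneg (G k) (hp k).1 (hp k).2
      (fun H => ¬ HasCycleOfLengthAtLeast ((1 - δ k) * k) H)
    linarith
  have hlow : Tendsto (fun k => 1 - δ k) atTop (𝓝 1) := by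
    have := (tendsto_const_nhds (x := (1 : ℝ))).sub hδ0
    simpa using this
  refine tendsto_of_tendsto_of_tendsto_of_le_of_le hlow tendsto_const_nhds ?_ hle1
  intro k
  have := hFδ k
  simp only [hF] at this
  simp only
  linarith

/-- **Q1 is true**: if `G k` has average degree at least `k` and `p k * k → ∞`, the random subgraph
of `G k` has a cycle of length at least `(1 - o(1)) k` with probability tending to `1`.  Moreover,
for every `ε > 0` there are `C, c > 0` such that for every finite graph `G` of average degree at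
least `k` and every `p ≥ C / k` the random subgraph has a cycle of length at least `(1 - ε) k` with
probability at least `1 - exp (- c p k ^ 2)`. -/
theorem result : Q1 ∧ Quantitative := ⟨q1, quantitative⟩

end Pool.Agent.Results.MP_816dee_pr.LongCyclesAverageDegree
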